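import Mathlib

set_option autoImplicit false

namespace Pool.Agent.P.MP_f458de_lc

open Finset

/-- Load of machine `k` after the first `n` jobs under the decisions `d`. -/
noncomputable def load {m : ℕ} (σ : ℕ → ℝ × ℝ) (d : ℕ → Option (Fin m)) (n : ℕ) (k : Fin m) : ℝ :=
  ∑ i ∈ (range n).filter (fun i => d i = some k), (σ i).1

/-- Total penalty of the rejected jobs among the first `n`. -/
noncomputable def pen {m : ℕ} (σ : ℕ → ℝ × ℝ) (d : ℕ → Option (Fin m)) (n : ℕ) : ℝ :=
  ∑ i ∈ (range n).filter (fun i => d i = none), (σ i).2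

/-- Makespan. -/
noncomputable def span {m : ℕ} (σ : ℕ → ℝ × ℝ) (d : ℕ → Option (Fin m)) (n : ℕ) : ℝ :=
  ⨆ k : Fin m, load σ d n k

/-- Makespan plus penalty. -/
noncomputable def cost {m : ℕ} (σ : ℕ → ℝ × ℝ) (d : ℕ → Option (Fin m)) (n : ℕ) : ℝ :=
  span σ d n + pen σ d n

/-- Total length of the accepted jobs among the first `n`. -/
noncomputable def work {m : ℕ} (σ : ℕ → ℝ × ℝ) (d : ℕ → Option (Fin m)) (n : ℕ) : ℝ :=
  ∑ i ∈ range n, if d i = none then 0 else (σ i).1

variable {m : ℕ} {σ : ℕ → ℝ × ℝ} {d : ℕ → Option (Fin m)}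

lemma load_zero (k : Fin m) : load σ d 0 k = 0 := by simp [load]

lemma load_succ (n : ℕ) (k : Fin m) :
    load σ d (n + 1) k = load σ d n k + if d n = some k then (σ n).1 else 0 := by
  unfold load
  rw [sum_filter, sum_filter, sum_range_succ]

lemma pen_zero : pen σ d 0 = 0 := by simp [pen]

lemma pen_succ (n : ℕ) :
    pen σ d (n + 1) = pen σ d n + if d n = none then (σ n).2 else 0 := by
  unfold pen
  rw [sum_filter, sum_filter, sum_range_succ]

lemma work_zero : work σ d 0 = 0 := by simp [work]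

lemma work_succ (n : ℕ) :
    work σ d (n + 1) = work σ d n + if d n = none then 0 else (σ n).1 := by
  unfold work
  rw [sum_range_succ]

lemma sum_load (n : ℕ) : ∑ k, load σ d n k = work σ d n := by
  induction n with
  | zero => simp [load_zero, work_zero]
  | succ n ih =>
    simp only [load_succ, work_succ, sum_add_distrib, ih]
    congr 1
    cases h : d n with
    | none => simp
    | some k0 => simp [eq_comm]

lemma load_nonneg {n : ℕ} (hσ : ∀ i < n, 0 < (σ i).1 ∧ 0 ≤ (σ i).2) (k : Fin m) :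
    0 ≤ load σ d n k := by
  unfold load
  refine sum_nonneg fun i hi => ?_
  exact (hσ i (mem_range.1 (mem_filter.1 hi).1)).1.le

lemma pen_nonneg {n : ℕ} (hσ : ∀ i < n, 0 < (σ i).1 ∧ 0 ≤ (σ i).2) : 0 ≤ pen σ d n := by
  unfold pen
  refine sum_nonneg fun i hi => ?_
  exact (hσ i (mem_range.1 (mem_filter.1 hi).1)).2

lemma load_le_span (n : ℕ) (k : Fin m) : load σ d n k ≤ span σ d n :=
  le_ciSup (f := fun k => load σ d n k) (Set.finite_range _).bddAbove k

lemma span_nonneg {n : ℕ} (hσ : ∀ i < n, 0 < (σ i).1 ∧ 0 ≤ (σ i).2) : 0 ≤ span σ d n :=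
  Real.iSup_nonneg fun k => load_nonneg hσ k

lemma cost_nonneg {n : ℕ} (hσ : ∀ i < n, 0 < (σ i).1 ∧ 0 ≤ (σ i).2) : 0 ≤ cost σ d n :=
  add_nonneg (span_nonneg hσ) (pen_nonneg hσ)

lemma span_le {n : ℕ} {x : ℝ} (hx : 0 ≤ x) (h : ∀ k, load σ d n k ≤ x) : span σ d n ≤ x :=
  Real.iSup_le h hx

lemma work_le_span (n : ℕ) : work σ d n ≤ m * span σ d n := by
  rw [← sum_load]
  calc ∑ k, load σ d n k ≤ ∑ _k : Fin m, span σ d n := sum_le_sum fun k _ => load_le_span n k
    _ = m * span σ d n := by simp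

lemma len_le_span {n : ℕ} (hσ : ∀ i < n, 0 < (σ i).1 ∧ 0 ≤ (σ i).2) {i : ℕ} (hi : i < n)
    (h : d i ≠ none) : (σ i).1 ≤ span σ d n := by
  obtain ⟨k, hk⟩ := Option.ne_none_iff_exists'.1 h
  refine le_trans ?_ (load_le_span n k)
  unfold load
  refine single_le_sum (f := fun i => (σ i).1) (fun j hj => ?_) ?_
  · exact (hσ j (mem_range.1 (mem_filter.1 hj).1)).1.le
  · exact mem_filter.2 ⟨mem_range.2 hi, hk⟩

lemma pen_le_pen {n : ℕ} (hσ : ∀ i < n, 0 < (σ i).1 ∧ 0 ≤ (σ i).2) {i : ℕ} (hi : i < n)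
    (h : d i = none) : (σ i).2 ≤ pen σ d n := by
  unfold pen
  refine single_le_sum (f := fun i => (σ i).2) (fun j hj => ?_) ?_
  · exact (hσ j (mem_range.1 (mem_filter.1 hj).1)).2
  · exact mem_filter.2 ⟨mem_range.2 hi, h⟩

lemma inf_le_cost {n : ℕ} (hσ : ∀ i < n, 0 < (σ i).1 ∧ 0 ≤ (σ i).2) (e : ℕ → Option (Fin m)) :
    (⨅ d : ℕ → Option (Fin m), cost σ d n) ≤ cost σ e n :=
  ciInf_le (f := fun d : ℕ → Option (Fin m) => cost σ d n)
    ⟨0, by rintro _ ⟨d, rfl⟩; exact cost_nonneg hσ⟩ e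

/-- List scheduling bound. -/
lemma load_le_of_greedy {n : ℕ} (hm : 0 < m) (hσ : ∀ i < n, 0 < (σ i).1 ∧ 0 ≤ (σ i).2)
    (hg : ∀ i < n, ∀ k, d i = some k → ∀ k', load σ d i k ≤ load σ d i k')
    {τ : ℝ} (hτ : 0 ≤ τ) (hT : ∀ i < n, d i ≠ none → (σ i).1 ≤ τ) (k : Fin m) :
    load σ d n k ≤ work σ d n / m + τ := by
  have hm' : (0 : ℝ) < m := by exact_mod_cast hm
  induction n with
  | zero => simp [load_zero, work_zero, hτ]
  | succ n ih =>
    have ih' := ih (fun i hi => hσ i (by omega)) (fun i hi => hg i (by omega))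
      (fun i hi => hT i (by omega))
    have hw : work σ d n / m ≤ work σ d (n + 1) / m := by
      apply div_le_div_of_nonneg_right _ hm'.le
      rw [work_succ]
      have := (hσ n (by omega)).1
      split_ifs <;> linarith
    rw [load_succ]
    split_ifs with h
    · have h1 : (m : ℝ) * load σ d n k ≤ work σ d n := by
        rw [← sum_load]
        calc (m : ℝ) * load σ d n k = ∑ _k : Fin m, load σ d n k := by simp
          _ ≤ ∑ k', load σ d n k' := sum_le_sum fun k' _ => hg n (by omega) k h k'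
      have h2 : load σ d n k ≤ work σ d n / m := by
        rw [le_div_iff₀ hm']; linarith
      have h3 := hT n (by omega) (by rw [h]; simp)
      linarith
    · linarith

end Pool.Agent.P.MP_f458de_lc
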