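import Pool.Agent.P.MP_f458de_lc.Basic

set_option autoImplicit false

namespace Pool.Agent.P.MP_f458de_lc

open Finset

/-- The base sequence of the adversary: unit jobs with penalties `0.39, 0.16, 1/3, 1/4, ...`. -/
noncomputable def base (i : ℕ) : ℝ × ℝ :=
  (1, if i = 0 then 39 / 100 else if i = 1 then 16 / 100 else 1 / ((i : ℝ) + 1))

/-- The base sequence cut at `N` and followed by unit jobs of penalty `3`. -/
noncomputable def cutAt (N : ℕ) (i : ℕ) : ℝ × ℝ := if i < N then base i else (1, 3)

/-- Number of rejected jobs among the first `n`. -/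
def rej {m : ℕ} (d : ℕ → Option (Fin m)) (n : ℕ) : ℕ :=
  ((range n).filter (fun i => d i = none)).card

variable {m : ℕ}

lemma base_fst (i : ℕ) : (base i).1 = 1 := rfl

lemma base_snd_ge (i : ℕ) : 1 / ((i : ℝ) + 1) / 4 ≤ (base i).2 := by
  unfold base
  dsimp only
  split_ifs with h0 h1
  · subst h0; norm_num
  · subst h1; norm_num
  · have : 0 ≤ 1 / ((i : ℝ) + 1) := by positivity
    linarith

lemma base_ok (i : ℕ) : 0 < (base i).1 ∧ 0 ≤ (base i).2 := by
  refine ⟨by rw [base_fst]; norm_num, le_trans ?_ (base_snd_ge i)⟩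
  positivity

lemma cutAt_fst (N i : ℕ) : (cutAt N i).1 = 1 := by
  unfold cutAt; split_ifs <;> rfl

lemma cutAt_ok (N i : ℕ) : 0 < (cutAt N i).1 ∧ 0 ≤ (cutAt N i).2 := by
  unfold cutAt
  split_ifs
  · exact base_ok i
  · norm_num

lemma rej_succ (d : ℕ → Option (Fin m)) (n : ℕ) :
    rej d (n + 1) = rej d n + if d n = none then 1 else 0 := by
  unfold rej
  rw [card_filter, card_filter, sum_range_succ]

lemma rej_le (d : ℕ → Option (Fin m)) (n : ℕ) : rej d n ≤ n := by
  unfold rej
  exact (card_filter_le _ _).trans (by simp)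

lemma rej_mono (d : ℕ → Option (Fin m)) {a b : ℕ} (h : a ≤ b) : rej d a ≤ rej d b := by
  unfold rej
  exact card_le_card (filter_subset_filter _ (range_subset_range.2 h))

lemma span_le_one {σ : ℕ → ℝ × ℝ} {n : ℕ} (h1 : ∀ i, (σ i).1 = 1) (e : ℕ → Option (Fin m))
    (hinj : ∀ i < n, ∀ j < n, ∀ k, e i = some k → e j = some k → i = j) :
    span σ e n ≤ 1 := by
  refine span_le zero_le_one fun k => ?_
  unfold load
  simp only [h1, sum_const, nsmul_eq_mul, mul_one]
  have : ((range n).filter (fun i => e i = some k)).card ≤ 1 := by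
    rw [card_le_one]
    intro i hi j hj
    rw [mem_filter, mem_range] at hi hj
    exact hinj i hi.1 j hj.1 k hi.2 hj.2
  exact_mod_cast this

lemma work_unit {σ : ℕ → ℝ × ℝ} (h1 : ∀ i, (σ i).1 = 1) (d : ℕ → Option (Fin m)) (n : ℕ) :
    work σ d n + rej d n = n := by
  induction n with
  | zero => simp [work_zero, rej]
  | succ n ih =>
    rw [work_succ, rej_succ, h1]
    push_cast
    split_ifs <;> linarith

lemma two_le_span {σ : ℕ → ℝ × ℝ} (hm : 0 < m) (h1 : ∀ i, (σ i).1 = 1)
    (d : ℕ → Option (Fin m)) {n : ℕ} (h : (m : ℝ) < work σ d n) : 2 ≤ span σ d n := by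
  by_contra hc
  have hc' : span σ d n < 2 := not_le.1 hc
  have : ∀ k, load σ d n k ≤ 1 := by
    intro k
    have h2 := (load_le_span (σ := σ) (d := d) n k).trans_lt hc'
    unfold load at h2 ⊢
    simp only [h1, sum_const, nsmul_eq_mul, mul_one] at h2 ⊢
    have h3 : ((range n).filter (fun i => d i = some k)).card < 2 := by exact_mod_cast h2
    have h4 : ((range n).filter (fun i => d i = some k)).card ≤ 1 := by omega
    exact_mod_cast h4
  have h5 := span_le (σ := σ) (d := d) (n := n) zero_le_one this
  have h6 := work_le_span (σ := σ) (d := d) n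
  have hm' : (0 : ℝ) < m := by exact_mod_cast hm
  nlinarith

/-- Abel summation bound for the penalties. -/
lemma harmonic_le_pen (d : ℕ → Option (Fin m)) (h0 : d 0 = none) {ε : ℝ} {M : ℕ} (hM : 1 ≤ M)
    (h : ∀ N, 1 ≤ N → N ≤ M → ε * N ≤ rej d N) :
    (rej d M : ℝ) / M + ε * (∑ i ∈ range M, 1 / ((i : ℝ) + 1) - 1) ≤
      ∑ i ∈ range M, if d i = none then 1 / ((i : ℝ) + 1) else 0 := by
  induction M, hM using Nat.le_induction with
  | base => simp [rej, h0, Finset.filter_singleton]
  | succ M hM ih =>
    have ih' := ih (fun N h1 h2 => h N h1 (by omega))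
    have hM' : (0 : ℝ) < M := by exact_mod_cast hM
    have h1 := h M hM (by omega)
    rw [sum_range_succ, sum_range_succ, rej_succ]
    push_cast
    have key : (rej d M : ℝ) / (M + 1) + ε * (1 / ((M : ℝ) + 1)) ≤ (rej d M : ℝ) / M := by
      rw [mul_one_div, ← add_div, div_le_div_iff₀ (by positivity) hM']
      nlinarith
    rw [add_div]
    split_ifs with hd
    · linarith
    · simp only [zero_div]; linarith

/-- No deterministic algorithm is `2.51`-competitive on many machines. -/
theorem no_det : ∃ m₀ : ℕ, ∀ m : ℕ, m₀ ≤ m →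
    ¬ ∃ A : List (ℝ × ℝ) → Option (Fin m), ∀ (n : ℕ) (σ : ℕ → ℝ × ℝ),
      (∀ i < n, 0 < (σ i).1 ∧ 0 ≤ (σ i).2) →
      cost σ (fun i => A ((List.range (i + 1)).map σ)) n ≤
        251 / 100 * ⨅ e : ℕ → Option (Fin m), cost σ e n := by
  obtain ⟨m₁, hm₁⟩ := Filter.eventually_atTop.1
    (Real.tendsto_sum_range_one_div_nat_succ_atTop.eventually_ge_atTop 3000)
  refine ⟨max m₁ 1, fun m hm => ?_⟩
  have hm1 : 1 ≤ m := le_trans (le_max_right _ _) hm
  have hH := hm₁ m (le_trans (le_max_left _ _) hm)
  rintro ⟨A, hA⟩
  have hA' : ∀ (n : ℕ) (σ : ℕ → ℝ × ℝ), (∀ i < n, 0 < (σ i).1 ∧ 0 ≤ (σ i).2) →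
      ∀ e : ℕ → Option (Fin m),
      cost σ (fun i => A ((List.range (i + 1)).map σ)) n ≤ 251 / 100 * cost σ e n := by
    intro n σ hσ e
    have h1 := hA n σ hσ
    have h2 := inf_le_cost hσ e
    linarith
  clear hA
  set d : ℕ → Option (Fin m) := fun i => A ((List.range (i + 1)).map base) with hd
  have hb : ∀ n : ℕ, ∀ i < n, 0 < (base i).1 ∧ 0 ≤ (base i).2 := fun n i _ => base_ok i
  have hspan0 : ∀ n, span base (fun _ => (none : Option (Fin m))) n ≤ 0 := fun n =>
    span_le le_rfl fun k => by simp [load]
  -- the first job is rejected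
  have hd0 : d 0 = none := by
    by_contra hc
    have h1 := hA' 1 base (hb 1) (fun _ => none)
    have h2 := len_le_span (d := d) (hb 1) (i := 0) (by norm_num) hc
    have h3 := pen_nonneg (d := d) (hb 1)
    have h4 : pen base (fun _ => (none : Option (Fin m))) 1 = 39 / 100 := by
      simp [pen_succ, pen_zero, base]
    have h5 := hspan0 1
    rw [base_fst] at h2
    unfold cost at h1
    rw [← hd] at h1
    linarith
  -- the second job is rejected
  have hd1 : d 1 = none := by
    by_contra hc
    have h1 := hA' 2 base (hb 2) (fun _ => none)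
    have h2 := len_le_span (d := d) (hb 2) (i := 1) (by norm_num) hc
    have h3 := pen_le_pen (d := d) (hb 2) (i := 0) (by norm_num) hd0
    have h4 : pen base (fun _ => (none : Option (Fin m))) 2 = 55 / 100 := by
      simp [pen_succ, pen_zero, base]; norm_num
    have h5 := hspan0 2
    have h6 : (base 0).2 = 39 / 100 := by simp [base]
    rw [base_fst] at h2
    unfold cost at h1
    rw [← hd] at h1
    linarith
  -- the penalty paid on the first m jobs is small
  have hpen : pen base d m ≤ 251 / 100 := by
    have h1 := hA' m base (hb m) (fun i => if h : i < m then some ⟨i, h⟩ else none)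
    have h2 : span base (fun i => if h : i < m then some (⟨i, h⟩ : Fin m) else none) m ≤ 1 := by
      refine span_le_one base_fst _ fun i hi j hj k h1 h2 => ?_
      simp only [hi, hj, dif_pos, Option.some.injEq] at h1 h2
      have := h1.trans h2.symm
      simpa using this
    have h3 : pen base (fun i => if h : i < m then some (⟨i, h⟩ : Fin m) else none) m = 0 := by
      unfold pen
      refine sum_eq_zero fun i hi => ?_
      rw [mem_filter, mem_range] at hi
      simp [hi.1] at hi
    have h4 := span_nonneg (d := d) (hb m)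
    unfold cost at h1
    rw [← hd] at h1
    linarith
  -- some initial segment has few rejections
  have hN : ∃ N, 1 ≤ N ∧ N ≤ m ∧ (rej d N : ℝ) < 1 / 200 * N := by
    by_contra hc
    push Not at hc
    have h1 := harmonic_le_pen d hd0 (ε := 1 / 200) hm1 hc
    have h2 : (∑ i ∈ range m, if d i = none then 1 / ((i : ℝ) + 1) else 0) / 4 ≤
        pen base d m := by
      unfold pen
      rw [sum_filter, sum_div]
      refine sum_le_sum fun i _ => ?_
      split_ifs
      · exact base_snd_ge i
      · simp
    have h3 : (0 : ℝ) ≤ (rej d m : ℝ) / m := by positivity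
    linarith
  obtain ⟨N, hN1, hNm, hNr⟩ := hN
  have hr1 : rej d 1 = 1 := by simp [rej, hd0, Finset.filter_singleton]
  have hr2 : rej d 2 = 2 := by rw [rej_succ, hr1, if_pos hd1]
  have hN2 : 2 ≤ N := by
    by_contra hc
    have : N = 1 := by omega
    subst this
    rw [hr1] at hNr
    norm_num at hNr
  have hr : 2 ≤ rej d N := hr2 ▸ rej_mono d hN2
  set r := rej d N with hrdef
  have hrN : 200 * r < N := by
    have : (200 : ℝ) * r < N := by linarith
    exact_mod_cast this
  -- the final sequence
  set d' : ℕ → Option (Fin m) := fun i => A ((List.range (i + 1)).map (cutAt N)) with hd'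
  have hdd : ∀ i < N, d' i = d i := by
    intro i hi
    simp only [hd, hd']
    congr 1
    refine List.map_congr_left fun j hj => ?_
    have : j < N := by
      have := List.mem_range.1 hj
      omega
    simp [cutAt, this]
  have hc : ∀ n : ℕ, ∀ i < n, 0 < (cutAt N i).1 ∧ 0 ≤ (cutAt N i).2 := fun n i _ => cutAt_ok N i
  let e : ℕ → Option (Fin m) := fun i =>
    if h : i < N - r - 1 then some ⟨i, by omega⟩
    else if i < N then none
    else if h' : i - r - 1 < m then some ⟨i - r - 1, h'⟩ else none
  have h1 := hA' (m + r + 1) (cutAt N) (hc _) e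
  have h2 : span (cutAt N) e (m + r + 1) ≤ 1 := by
    refine span_le_one (cutAt_fst N) _ fun i hi j hj k h1 h2 => ?_
    simp only [e] at h1 h2
    have h3 := h1.trans h2.symm
    split_ifs at h1 h2 h3 <;> simp only [Option.some.injEq, Fin.mk.injEq] at h3 <;> omega
  have h3 : pen (cutAt N) e (m + r + 1) ≤ 1 / 125 := by
    have hNr' : (0 : ℝ) < (N : ℝ) - r := by
      have : (r : ℝ) ≥ 0 := by positivity
      linarith
    have hsub : (range (m + r + 1)).filter (fun i => e i = none) ⊆ Ico (N - r - 1) N := by
      intro i hi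
      rw [mem_filter, mem_range] at hi
      rw [mem_Ico]
      have h4 := hi.2
      simp only [e] at h4
      split_ifs at h4 <;> omega
    have hle : ∀ i ∈ (range (m + r + 1)).filter (fun i => e i = none),
        (cutAt N i).2 ≤ 1 / ((N : ℝ) - r) := by
      intro i hi
      have h4 := mem_Ico.1 (hsub hi)
      have h5 : i ≠ 0 := by omega
      have h6 : i ≠ 1 := by omega
      simp only [cutAt, h4.2, if_true, base, h5, h6, if_false]
      apply one_div_le_one_div_of_le hNr'
      have h7 : N ≤ i + 1 + r := by omega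
      have h8 : (N : ℝ) ≤ i + 1 + r := by exact_mod_cast h7
      linarith
    have h4 := sum_le_card_nsmul _ _ _ hle
    have h5 : ((range (m + r + 1)).filter (fun i => e i = none)).card ≤ r + 1 := by
      refine (card_le_card hsub).trans ?_
      rw [Nat.card_Ico]
      omega
    have h6 : (((range (m + r + 1)).filter (fun i => e i = none)).card : ℝ) ≤ r + 1 := by
      exact_mod_cast h5
    unfold pen
    refine h4.trans ?_
    rw [nsmul_eq_mul]
    have h7 : (2 : ℝ) ≤ r := by exact_mod_cast hr
    calc _ ≤ ((r : ℝ) + 1) * (1 / ((N : ℝ) - r)) :=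
          mul_le_mul_of_nonneg_right h6 (by positivity)
      _ ≤ 1 / 125 := by
          rw [mul_one_div, div_le_div_iff₀ hNr' (by norm_num)]
          linarith
  have h4 : 255 / 100 ≤ cost (cutAt N) d' (m + r + 1) := by
    by_cases hx : ∃ i, N ≤ i ∧ i < m + r + 1 ∧ d' i = none
    · obtain ⟨i, hi1, hi2, hi3⟩ := hx
      have h5 := pen_le_pen (d := d') (hc (m + r + 1)) hi2 hi3
      have h6 : (cutAt N i).2 = 3 := by simp [cutAt, not_lt.2 hi1]
      have h7 := span_nonneg (d := d') (hc (m + r + 1))
      unfold cost
      linarith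
    · push Not at hx
      have h5 : rej d' (m + r + 1) = r := by
        rw [hrdef]
        unfold rej
        congr 1
        ext i
        simp only [mem_filter, mem_range]
        constructor
        · rintro ⟨h6, h7⟩
          have h8 : i < N := by
            by_contra h9
            exact hx i (not_lt.1 h9) h6 h7
          exact ⟨h8, hdd i h8 ▸ h7⟩
        · rintro ⟨h6, h7⟩
          exact ⟨by omega, (hdd i h6).trans h7⟩
      have h6 := work_unit (cutAt_fst N) d' (m + r + 1)
      rw [h5] at h6
      push_cast at h6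
      have h7 := two_le_span hm1 (cutAt_fst N) d' (n := m + r + 1) (by linarith)
      have h8 : 55 / 100 ≤ pen (cutAt N) d' (m + r + 1) := by
        have h9 : ({0, 1} : Finset ℕ) ⊆ (range (m + r + 1)).filter (fun i => d' i = none) := by
          intro i hi
          rw [mem_filter, mem_range]
          rcases mem_insert.1 hi with h | h
          · subst h
            exact ⟨by omega, (hdd 0 (by omega)).trans hd0⟩
          · rw [mem_singleton] at h
            subst h
            exact ⟨by omega, (hdd 1 (by omega)).trans hd1⟩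
        have h10 := sum_le_sum_of_subset_of_nonneg (f := fun i => (cutAt N i).2) h9
          (fun i _ _ => (cutAt_ok N i).2)
        have h11 : ∑ i ∈ ({0, 1} : Finset ℕ), (cutAt N i).2 = 55 / 100 := by
          have h12 : 0 < N := by omega
          have h13 : 1 < N := by omega
          rw [sum_pair (by norm_num)]
          simp [cutAt, h12, h13, base]
          norm_num
        unfold pen
        linarith
      unfold cost
      linarith
  rw [← hd'] at h1
  have h5 : cost (cutAt N) e (m + r + 1) ≤ 1 + 1 / 125 := by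
    unfold cost
    linarith
  linarith

end Pool.Agent.P.MP_f458de_lc
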