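import Pool.Agent.P.MP_f458de_lc.Basic

set_option autoImplicit false

namespace Pool.Agent.P.MP_f458de_lc

open Finset

/-- State of the algorithm: machine loads, the profile `g` of penalties rejected by rule two,
and the last decision. -/
abbrev St (m : ℕ) : Type := (Fin m → ℝ) × (ℝ → ℝ) × Option (Fin m)

/-- A least loaded machine. -/
noncomputable def least {m : ℕ} [Nonempty (Fin m)] (f : Fin m → ℝ) : Fin m :=
  Classical.choose (Finite.exists_min f)

lemma least_le {m : ℕ} [Nonempty (Fin m)] (f : Fin m → ℝ) (k : Fin m) : f (least f) ≤ f k :=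
  Classical.choose_spec (Finite.exists_min f) k

open Classical in
/-- One step of the algorithm with parameter `a`. -/
noncomputable def step {m : ℕ} [Nonempty (Fin m)] (a : ℝ) (s : St m) (j : ℝ × ℝ) : St m :=
  if j.2 ≤ j.1 / m then (s.1, s.2.1, none)
  else if ∀ y, j.1 ≤ y → s.2.1 y + j.2 ≤ a * y then
    (s.1, fun y => s.2.1 y + if j.1 ≤ y then j.2 else 0, none)
  else (fun k => s.1 k + if least s.1 = k then j.1 else 0, s.2.1, some (least s.1))

/-- The online algorithm with parameter `a`. -/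
noncomputable def alg (m : ℕ) [Nonempty (Fin m)] (a : ℝ) (l : List (ℝ × ℝ)) : Option (Fin m) :=
  (l.foldl (step a) (fun _ => 0, fun _ => 0, none)).2.2

/-- The state after `n` jobs. -/
noncomputable def st (m : ℕ) [Nonempty (Fin m)] (a : ℝ) (σ : ℕ → ℝ × ℝ) (n : ℕ) : St m :=
  ((List.range n).map σ).foldl (step a) (fun _ => 0, fun _ => 0, none)

/-- The decisions of the algorithm along `σ`. -/
noncomputable def dec (m : ℕ) [Nonempty (Fin m)] (a : ℝ) (σ : ℕ → ℝ × ℝ) (i : ℕ) :
    Option (Fin m) :=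
  alg m a ((List.range (i + 1)).map σ)

/-- Penalty mass of the jobs with length in `(x, y]`. -/
noncomputable def mass (σ : ℕ → ℝ × ℝ) (n : ℕ) (x y : ℝ) : ℝ :=
  ∑ i ∈ range n, if x < (σ i).1 ∧ (σ i).1 ≤ y then (σ i).2 else 0

variable {m : ℕ} [Nonempty (Fin m)] {a : ℝ} {σ : ℕ → ℝ × ℝ}

lemma st_zero : st m a σ 0 = (fun _ => 0, fun _ => 0, none) := by simp [st]

lemma st_succ (n : ℕ) : st m a σ (n + 1) = step a (st m a σ n) (σ n) := by
  simp [st, List.range_succ, List.foldl_append]

lemma dec_eq (n : ℕ) : dec m a σ n = (step a (st m a σ n) (σ n)).2.2 := by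
  rw [← st_succ]; rfl

/-- The three cases of a step. -/
lemma step_cases (n : ℕ) :
    ((σ n).2 ≤ (σ n).1 / m ∧ dec m a σ n = none ∧ (st m a σ (n + 1)).1 = (st m a σ n).1 ∧
      (st m a σ (n + 1)).2.1 = (st m a σ n).2.1) ∨
    ((∀ y, (σ n).1 ≤ y → (st m a σ n).2.1 y + (σ n).2 ≤ a * y) ∧ dec m a σ n = none ∧
      (st m a σ (n + 1)).1 = (st m a σ n).1 ∧
      (st m a σ (n + 1)).2.1 =
        fun y => (st m a σ n).2.1 y + if (σ n).1 ≤ y then (σ n).2 else 0) ∨
    ((σ n).1 / m < (σ n).2 ∧ (∃ y, (σ n).1 ≤ y ∧ a * y < (st m a σ n).2.1 y + (σ n).2) ∧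
      dec m a σ n = some (least (st m a σ n).1) ∧
      (st m a σ (n + 1)).1 =
        (fun k => (st m a σ n).1 k + if least (st m a σ n).1 = k then (σ n).1 else 0) ∧
      (st m a σ (n + 1)).2.1 = (st m a σ n).2.1) := by
  rw [dec_eq, st_succ]
  by_cases h1 : (σ n).2 ≤ (σ n).1 / m
  · left
    simp [step, h1]
  · by_cases h2 : ∀ y, (σ n).1 ≤ y → (st m a σ n).2.1 y + (σ n).2 ≤ a * y
    · right; left
      refine ⟨h2, ?_⟩
      unfold step
      rw [if_neg h1, if_pos h2]
      exact ⟨rfl, rfl, rfl⟩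
    · right; right
      refine ⟨not_le.1 h1, ?_, ?_⟩
      · push Not at h2
        exact h2
      · unfold step
        rw [if_neg h1, if_neg h2]
        exact ⟨rfl, rfl, rfl⟩

lemma st_load (n : ℕ) (k : Fin m) : (st m a σ n).1 k = load σ (dec m a σ) n k := by
  induction n with
  | zero => simp [st_zero, load_zero]
  | succ n ih =>
    rw [load_succ, ← ih]
    rcases step_cases (m := m) (a := a) (σ := σ) n with h | h | h
    · rw [h.2.2.1, h.2.1]; simp
    · rw [h.2.2.1, h.2.1]; simp
    · rw [h.2.2.2.1, h.2.2.1]; simp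

lemma greedy (i : ℕ) (k : Fin m) (h : dec m a σ i = some k) (k' : Fin m) :
    load σ (dec m a σ) i k ≤ load σ (dec m a σ) i k' := by
  rw [← st_load, ← st_load]
  rcases step_cases (m := m) (a := a) (σ := σ) i with h' | h' | h'
  · rw [h'.2.1] at h; simp at h
  · rw [h'.2.1] at h; simp at h
  · rw [h'.2.2.1] at h
    have : least (st m a σ i).1 = k := by simpa using h
    rw [← this]
    exact least_le _ _

lemma g_le (ha : 0 ≤ a) (n : ℕ) {y : ℝ} (hy : 0 ≤ y) : (st m a σ n).2.1 y ≤ a * y := by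
  induction n with
  | zero => simp [st_zero, mul_nonneg ha hy]
  | succ n ih =>
    rcases step_cases (m := m) (a := a) (σ := σ) n with h | h | h
    · rw [h.2.2.2]; exact ih
    · rw [h.2.2.2]
      dsimp only
      split_ifs with h1
      · exact h.1 y h1
      · linarith
    · rw [h.2.2.2.2]; exact ih

omit [Nonempty (Fin m)] in
lemma mass_succ (n : ℕ) (x y : ℝ) : mass σ (n + 1) x y =
    mass σ n x y + if x < (σ n).1 ∧ (σ n).1 ≤ y then (σ n).2 else 0 := by
  unfold mass
  rw [sum_range_succ]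

lemma g_sub_le {n : ℕ} (hσ : ∀ i < n, 0 < (σ i).1 ∧ 0 ≤ (σ i).2) {x y : ℝ} (hxy : x ≤ y) :
    (st m a σ n).2.1 y ≤ (st m a σ n).2.1 x + mass σ n x y := by
  induction n with
  | zero => simp [st_zero, mass]
  | succ n ih =>
    have ih' := ih (fun i hi => hσ i (by omega))
    have hp := (hσ n (by omega)).2
    rw [mass_succ]
    rcases step_cases (m := m) (a := a) (σ := σ) n with h | h | h
    · rw [h.2.2.2]
      split_ifs <;> linarith
    · rw [h.2.2.2]
      dsimp only
      by_cases h1 : (σ n).1 ≤ x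
      · have h2 : (σ n).1 ≤ y := h1.trans hxy
        have h3 : ¬ (x < (σ n).1 ∧ (σ n).1 ≤ y) := fun h => absurd h.1 (not_lt.2 h1)
        rw [if_pos h1, if_pos h2, if_neg h3]; linarith
      · by_cases h2 : (σ n).1 ≤ y
        · have h3 : x < (σ n).1 ∧ (σ n).1 ≤ y := ⟨not_le.1 h1, h2⟩
          rw [if_neg h1, if_pos h2, if_pos h3]; linarith
        · have h3 : ¬ (x < (σ n).1 ∧ (σ n).1 ≤ y) := fun h => h2 h.2
          rw [if_neg h1, if_neg h2, if_neg h3]; linarith
    · rw [h.2.2.2.2]
      split_ifs <;> linarith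

/-- The threshold lemma. -/
lemma exists_threshold (ha : 0 ≤ a) {n : ℕ} (hσ : ∀ i < n, 0 < (σ i).1 ∧ 0 ≤ (σ i).2)
    {x : ℝ} (hx : 0 ≤ x) :
    ∃ y, x ≤ y ∧ (∀ i < n, dec m a σ i ≠ none → (σ i).1 ≤ y) ∧ a * y ≤ a * x + mass σ n x y := by
  induction n with
  | zero => exact ⟨x, le_rfl, by simp, by simp [mass]⟩
  | succ n ih =>
    obtain ⟨y, hxy, hy, hay⟩ := ih (fun i hi => hσ i (by omega))
    have hp := (hσ n (by omega)).2
    by_cases hc : dec m a σ n ≠ none → (σ n).1 ≤ y
    · refine ⟨y, hxy, fun i hi => ?_, ?_⟩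
      · rcases Nat.lt_succ_iff_lt_or_eq.1 hi with h | h
        · exact hy i h
        · rw [h]; exact hc
      · rw [mass_succ]
        split_ifs <;> linarith
    · push Not at hc
      obtain ⟨hc1, hc2⟩ := hc
      rcases step_cases (m := m) (a := a) (σ := σ) n with h | h | h
      · exact absurd h.2.1 hc1
      · exact absurd h.2.1 hc1
      · obtain ⟨y', hy1, hy2⟩ := h.2.1
        have hxy' : x ≤ y' := by linarith
        refine ⟨y', hxy', fun i hi hd => ?_, ?_⟩
        · rcases Nat.lt_succ_iff_lt_or_eq.1 hi with h' | h'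
          · have := hy i h' hd
            linarith
          · rw [h']; exact hy1
        · rw [mass_succ, if_pos ⟨by linarith, hy1⟩]
          have h1 := g_sub_le (m := m) (a := a) (n := n) (fun i hi => hσ i (by omega)) hxy'
          have h2 := g_le (m := m) (σ := σ) ha n hx
          linarith

/-- The charging lemma. -/
lemma charge {n : ℕ} (hσ : ∀ i < n, 0 < (σ i).1 ∧ 0 ≤ (σ i).2) (e : ℕ → Option (Fin m))
    {C : ℝ} (hC : ∀ i < n, e i ≠ none → (σ i).1 ≤ C) :
    work σ (dec m a σ) n / m + pen σ (dec m a σ) n ≤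
      work σ e n / m + (st m a σ n).2.1 C + pen σ e n := by
  induction n with
  | zero => simp [st_zero, work_zero, pen_zero]
  | succ n ih =>
    have ih' := ih (fun i hi => hσ i (by omega)) (fun i hi => hC i (by omega))
    have hp := (hσ n (by omega)).2
    have ht := (hσ n (by omega)).1
    have htm : 0 ≤ (σ n).1 / m := div_nonneg ht.le (Nat.cast_nonneg m)
    have hCn := hC n (by omega)
    rw [work_succ, work_succ, pen_succ, pen_succ, add_div, add_div]
    rcases step_cases (m := m) (a := a) (σ := σ) n with h | h | h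
    · rw [h.2.2.2, h.2.1]
      have := h.1
      by_cases he : e n = none
      · simp only [he, if_true, zero_div]; linarith
      · simp only [he, if_true, if_false, zero_div]; linarith
    · rw [h.2.2.2, h.2.1]
      dsimp only
      by_cases he : e n = none
      · simp only [he, if_true, zero_div]
        split_ifs <;> linarith
      · simp only [he, if_true, if_false, zero_div, if_pos (hCn he)]; linarith
    · rw [h.2.2.2.2, h.2.2.1]
      have := h.1
      by_cases he : e n = none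
      · simp only [he, if_true, zero_div, reduceCtorEq, if_false]; linarith
      · simp only [he, if_false, reduceCtorEq]; linarith

lemma cost_le (hm : 0 < m) (ha : 0 ≤ a) {n : ℕ} (hσ : ∀ i < n, 0 < (σ i).1 ∧ 0 ≤ (σ i).2)
    (e : ℕ → Option (Fin m)) {τ : ℝ} (hτ : 0 ≤ τ)
    (hT : ∀ i < n, dec m a σ i ≠ none → (σ i).1 ≤ τ) :
    cost σ (dec m a σ) n ≤ τ + (1 + a) * span σ e n + pen σ e n := by
  have hm' : (0 : ℝ) < m := by exact_mod_cast hm
  have hw0 : 0 ≤ work σ (dec m a σ) n := by
    rw [← sum_load]; exact sum_nonneg fun k _ => load_nonneg hσ k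
  have h1 : span σ (dec m a σ) n ≤ work σ (dec m a σ) n / m + τ :=
    span_le (by positivity) fun k =>
      load_le_of_greedy hm hσ (fun i _ k hk k' => greedy i k hk k') hτ hT k
  have h2 := charge (a := a) hσ e (C := span σ e n) (fun i hi h => len_le_span hσ hi h)
  have h3 := g_le (m := m) (σ := σ) ha n (span_nonneg (d := e) hσ)
  have h4 : work σ e n / m ≤ span σ e n := by
    rw [div_le_iff₀ hm']
    have := work_le_span (σ := σ) (d := e) n
    linarith
  unfold cost
  linarith

omit [Nonempty (Fin m)] in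
lemma mass_add_le {n : ℕ} (hσ : ∀ i < n, 0 < (σ i).1 ∧ 0 ≤ (σ i).2) (e : ℕ → Option (Fin m))
    {C y z : ℝ} (hy : C ≤ y) (hC : ∀ i < n, e i ≠ none → (σ i).1 ≤ C) :
    mass σ n C y + mass σ n y z ≤ pen σ e n := by
  induction n with
  | zero => simp [mass, pen_zero]
  | succ n ih =>
    have ih' := ih (fun i hi => hσ i (by omega)) (fun i hi => hC i (by omega))
    have hp := (hσ n (by omega)).2
    have hCn := hC n (by omega)
    rw [mass_succ, mass_succ, pen_succ]
    by_cases he : e n = none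
    · rw [if_pos he]
      by_cases h1 : (σ n).1 ≤ y
      · have h3 : ¬ (y < (σ n).1 ∧ (σ n).1 ≤ z) := fun h => absurd h.1 (not_lt.2 h1)
        rw [if_neg h3]
        split_ifs <;> linarith
      · have h3 : ¬ (C < (σ n).1 ∧ (σ n).1 ≤ y) := fun h => h1 h.2
        rw [if_neg h3]
        split_ifs <;> linarith
    · have h0 := hCn he
      have h1 : ¬ (C < (σ n).1 ∧ (σ n).1 ≤ y) := fun h => absurd h.1 (not_lt.2 h0)
      have h2 : ¬ (y < (σ n).1 ∧ (σ n).1 ≤ z) := fun h => absurd h.1 (not_lt.2 (h0.trans hy))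
      rw [if_neg he, if_neg h1, if_neg h2]
      linarith

/-- The average of the two deterministic algorithms is `5/2`-competitive. -/
theorem avg_le (hm : 0 < m) {n : ℕ} (hσ : ∀ i < n, 0 < (σ i).1 ∧ 0 ≤ (σ i).2)
    (e : ℕ → Option (Fin m)) :
    (cost σ (dec m (1 / 3) σ) n + cost σ (dec m (2 / 3) σ) n) / 2 ≤ 5 / 2 * cost σ e n := by
  have hC := span_nonneg (d := e) hσ
  obtain ⟨y, hy1, hy2, hy3⟩ := exists_threshold (m := m) (a := 2 / 3) (by norm_num) hσ hC
  have hy0 : 0 ≤ y := hC.trans hy1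
  obtain ⟨z, hz1, hz2, hz3⟩ := exists_threshold (m := m) (a := 1 / 3) (by norm_num) hσ hy0
  have h1 := cost_le (a := 2 / 3) hm (by norm_num) hσ e hy0 hy2
  have h2 := cost_le (a := 1 / 3) hm (by norm_num) hσ e (hy0.trans hz1) hz2
  have h3 := mass_add_le (z := z) hσ e hy1 (fun i hi h => len_le_span hσ hi h)
  unfold cost at *
  linarith

theorem avg_le_inf (hm : 0 < m) {n : ℕ} (hσ : ∀ i < n, 0 < (σ i).1 ∧ 0 ≤ (σ i).2) :
    (cost σ (dec m (1 / 3) σ) n + cost σ (dec m (2 / 3) σ) n) / 2 ≤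
      5 / 2 * ⨅ e : ℕ → Option (Fin m), cost σ e n := by
  have : (cost σ (dec m (1 / 3) σ) n + cost σ (dec m (2 / 3) σ) n) / 5 ≤
      ⨅ e : ℕ → Option (Fin m), cost σ e n := by
    refine le_ciInf fun e => ?_
    have := avg_le hm hσ e
    linarith
  linarith

end Pool.Agent.P.MP_f458de_lc
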